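import Pool.Agent.H55.CG.Targets

/-!
# The order of the gap: the expectation of the logarithm (row EXA, helper53)
-/

set_option autoImplicit false

open MeasureTheory ProbabilityTheory Filter Topology
open Pool.Agent.H95 Pool.Agent.H95.Cop Pool.Agent.H55.CG

namespace Pool.Agent.H53.CG

open Classical in
theorem pf_EXA (hPWA : T_PWA) (_hPZM : T_PZM) (hMSL : T_MSL) : T_EXA := by
  intro K hK0 α c n0 hα hc hk ν _ hνi ℓ m M hℓ hn0 hm htail g p hp hp0
  set B : ℕ := (2 * m + 2) * ℓ with hB
  set A : Set (ℕ → ℝ) := {x | Real.exp g ≤ XB K ℓ m x} with hA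
  have hXBm : Measurable (XB K ℓ m) := (hMSL K ℓ 0 m []).2.2.2.2.2.2
  have hAm : MeasurableSet A := measurableSet_le measurable_const hXBm
  -- the good blocks
  set S : (ℕ → ℝ) → Finset ℕ := fun x =>
    (Finset.range M).filter (fun j => Real.exp g ≤ XB K ℓ m (shift (j * B) x)) with hS
  have hcard : ∀ x, ((S x).card : ℝ) =
      ∑ j ∈ Finset.range M, (shift (j * B) ⁻¹' A).indicator (fun _ => (1 : ℝ)) x := by
    intro x
    rw [hS]
    simp only [Finset.card_filter, Nat.cast_sum]
    apply Finset.sum_congr rfl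
    intro j _
    by_cases h : Real.exp g ≤ XB K ℓ m (shift (j * B) x)
    · have hx : x ∈ shift (j * B) ⁻¹' A := h
      rw [Set.indicator_of_mem hx, if_pos h, Nat.cast_one]
    · have hx : x ∉ shift (j * B) ⁻¹' A := h
      rw [Set.indicator_of_notMem hx, if_neg h, Nat.cast_zero]
  have hindI : ∀ j : ℕ, Integrable ((shift (j * B) ⁻¹' A).indicator (fun _ => (1 : ℝ))) (iid ν) :=
    fun j => (integrable_const _).indicator (measurable_shift _ hAm)
  have hind : ∀ j : ℕ, ∫ x, (shift (j * B) ⁻¹' A).indicator (fun _ => (1 : ℝ)) x ∂(iid ν) = p := by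
    intro j
    rw [integral_indicator (measurable_shift _ hAm), setIntegral_const, smul_eq_mul, mul_one,
      real_shift_preimage ν _ hAm, hp]
  have hcardI : Integrable (fun x => ((S x).card : ℝ)) (iid ν) := by
    simp_rw [hcard]
    exact integrable_finsetSum _ (fun j _ => hindI j)
  have hcardE : ∫ x, ((S x).card : ℝ) ∂(iid ν) = M * p := by
    simp_rw [hcard]
    rw [integral_finsetSum _ (fun j _ => hindI j), Finset.sum_congr rfl (fun j _ => hind j),
      Finset.sum_const, Finset.card_range, nsmul_eq_mul]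
  -- the pointwise bound
  set P' : ℝ := g + Real.log (c / 2) - (1 + α) * Real.log ((B : ℕ) : ℝ) -
      (1 + α) * (Real.log (1 / p) - 1) with hP'
  have hpt : ∀ x, ((S x).card : ℝ) * P' - (1 + α) * p * M +
      Real.log (tailK K (M * B) / 2) ≤ Real.log (W K (M * B) x) := by
    intro x
    exact hPWA K hK0 α c n0 hα hc hk ℓ m M x hℓ hn0 hm htail g p hp0 (S x)
      (Finset.filter_subset _ _) (fun j hj => (Finset.mem_filter.mp hj).2)
  -- integrability of the logarithm
  have hlogI : Integrable (fun x => Real.log (W K (M * B) x)) (iid ν) := by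
    have h := integrable_logW ν K (M * B) 0 (f := fun z : ℝ => z) measurable_id hνi 0
    have h2 : ∀ ω : ℕ → ℝ, shift 0 (XX (fun z : ℝ => z) 0 ω) = ω := by
      intro ω
      rw [shift_zero]
      funext i
      simp [XX]
    simp only [h2] at h
    exact h
  have hlow : Integrable (fun x => ((S x).card : ℝ) * P' - (1 + α) * p * M +
      Real.log (tailK K (M * B) / 2)) (iid ν) :=
    ((hcardI.mul_const P').sub (integrable_const _)).add (integrable_const _)
  have hmain := integral_mono hlow hlogI hpt
  have hval : ∫ x, (((S x).card : ℝ) * P' - (1 + α) * p * M +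
      Real.log (tailK K (M * B) / 2)) ∂(iid ν) =
      M * p * P' - (1 + α) * p * M + Real.log (tailK K (M * B) / 2) := by
    have e1 : ∀ x, ((S x).card : ℝ) * P' - (1 + α) * p * M + Real.log (tailK K (M * B) / 2) =
        ((S x).card : ℝ) * P' + (Real.log (tailK K (M * B) / 2) - (1 + α) * p * M) :=
      fun x => by ring
    simp_rw [e1]
    have e2 : ∫ x, (((S x).card : ℝ) * P' + (Real.log (tailK K (M * B) / 2) - (1 + α) * p * M))
        ∂(iid ν) = ∫ x, ((S x).card : ℝ) * P' ∂(iid ν) +
        ∫ _x, (Real.log (tailK K (M * B) / 2) - (1 + α) * p * M) ∂(iid ν) :=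
      integral_add (hcardI.mul_const P') (integrable_const _)
    rw [e2, integral_mul_const, hcardE, integral_const, probReal_univ, one_smul]
    ring
  rw [hval] at hmain
  refine le_trans (le_of_eq ?_) hmain
  rw [hP']
  ring

end Pool.Agent.H53.CG
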