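import Pool.Agent.H55.CG.Targets

/-!
# The order of the gap: fractional moment of the first group (row GR0, helper53)
-/

set_option autoImplicit false

open MeasureTheory ProbabilityTheory Filter Topology
open Pool.Agent.H95 Pool.Agent.H95.Cop Pool.Agent.H55.CG

namespace Pool.Agent.H53.CG

/-- the pairs of points of the window of a group -/
def prs (ℓ n : ℕ) : Finset (Σ _ : ℕ, ℕ) :=
  (Finset.Ico ((2 * n - 1) * ℓ) (2 * n * ℓ)).sigma fun y => Finset.Ico y (2 * n * ℓ)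

lemma mem_prs {ℓ n : ℕ} {p : Σ _ : ℕ, ℕ} : p ∈ prs ℓ n ↔
    (2 * n - 1) * ℓ ≤ p.1 ∧ p.1 ≤ p.2 ∧ p.2 < 2 * n * ℓ := by
  unfold prs
  rw [Finset.mem_sigma, Finset.mem_Ico, Finset.mem_Ico]
  constructor
  · rintro ⟨⟨h1, h2⟩, h3, h4⟩; exact ⟨h1, h3, h4⟩
  · rintro ⟨h1, h3, h4⟩; exact ⟨⟨h1, lt_of_le_of_lt h3 h4⟩, h3, h4⟩

/-- the weight of a pair -/
noncomputable def ww (K : PMF ℕ) (ℓ : ℕ) (p : Σ _ : ℕ, ℕ) : ℝ := uu (kk K) (p.2 - p.1) / VV K ℓ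

lemma gg_eq (K : PMF ℕ) (ℓ : ℕ) (t : Bool) (n : ℕ) (t' : Bool) (x : ℕ → ℝ) :
    gg K ℓ t n t' x = ∑ p ∈ prs ℓ n, ww K ℓ p * Real.exp (ex ℓ t n t' x p.1 p.2) := by
  unfold gg prs
  rw [Finset.sum_sigma, Finset.sum_div]
  apply Finset.sum_congr rfl
  intro y _
  rw [Finset.sum_div]
  apply Finset.sum_congr rfl
  intro z _
  unfold ww
  ring

lemma ww_nonneg (hGGS : T_GGS) (K : PMF ℕ) (ℓ : ℕ) (hℓ : 1 ≤ ℓ) (p : Σ _ : ℕ, ℕ) :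
    0 ≤ ww K ℓ p :=
  div_nonneg (uu_nonneg _ (kk_nonneg K) _) (hGGS K ℓ hℓ).1.le

lemma ww_sum (hGGS : T_GGS) (K : PMF ℕ) (ℓ : ℕ) (hℓ : 1 ≤ ℓ) (n : ℕ) (hn : 1 ≤ n) :
    ∑ p ∈ prs ℓ n, ww K ℓ p = 1 := by
  have h := (hGGS K ℓ hℓ).2.2.2 n hn
  have hV := (hGGS K ℓ hℓ).1
  unfold ww prs
  rw [Finset.sum_sigma]
  simp_rw [← Finset.sum_div]
  rw [h, div_self hV.ne']

lemma jensen_concave (hGGS : T_GGS) (K : PMF ℕ) (ℓ : ℕ) (hℓ : 1 ≤ ℓ) (t : Bool) (n : ℕ)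
    (hn : 1 ≤ n) (t' : Bool) (x : ℕ → ℝ) (γ : ℝ) (h0 : 0 ≤ γ) (h1 : γ ≤ 1) :
    ∑ p ∈ prs ℓ n, ww K ℓ p * Real.exp (γ * ex ℓ t n t' x p.1 p.2) ≤ gg K ℓ t n t' x ^ γ := by
  rw [gg_eq]
  have h := (Real.concaveOn_rpow h0 h1).le_map_sum (t := prs ℓ n) (w := ww K ℓ)
    (p := fun p => Real.exp (ex ℓ t n t' x p.1 p.2))
    (fun p _ => ww_nonneg hGGS K ℓ hℓ p) (ww_sum hGGS K ℓ hℓ n hn)
    (fun p _ => (Real.exp_pos _).le)
  simp only [smul_eq_mul] at h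
  refine le_trans (le_of_eq ?_) h
  apply Finset.sum_congr rfl
  intro p _
  rw [mul_comm γ, Real.exp_mul]

lemma jensen_convex (hGGS : T_GGS) (K : PMF ℕ) (ℓ : ℕ) (hℓ : 1 ≤ ℓ) (t : Bool) (n : ℕ)
    (hn : 1 ≤ n) (t' : Bool) (x : ℕ → ℝ) (s : ℝ) (h1 : 1 ≤ s) :
    gg K ℓ t n t' x ^ s ≤ ∑ p ∈ prs ℓ n, ww K ℓ p * Real.exp (s * ex ℓ t n t' x p.1 p.2) := by
  rw [gg_eq]
  have h := (convexOn_rpow h1).map_sum_le (t := prs ℓ n) (w := ww K ℓ)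
    (p := fun p => Real.exp (ex ℓ t n t' x p.1 p.2))
    (fun p _ => ww_nonneg hGGS K ℓ hℓ p) (ww_sum hGGS K ℓ hℓ n hn)
    (fun p _ => (Real.exp_pos _).le)
  simp only [smul_eq_mul] at h
  refine le_trans h (le_of_eq ?_)
  apply Finset.sum_congr rfl
  intro p _
  rw [mul_comm s, Real.exp_mul]

lemma Mo_zero (ν : Measure ℝ) [IsProbabilityMeasure ν] : Mo ν 0 = 1 := by
  unfold Mo
  simp

lemma Mo_nonneg (ν : Measure ℝ) (s : ℝ) : 0 ≤ Mo ν s :=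
  integral_nonneg (fun _ => (Real.exp_pos _).le)

theorem pf_GR0 (hEXC : T_EXC) (hGGS : T_GGS) (hGIN : T_GIN) : T_GR0 := by
  intro K ν _ hν γ ℓ hγ hγ1 hℓ hM
  have hM0 := Mo_nonneg ν (γ / 2)
  have key : ∀ p ∈ prs ℓ 1,
      Integrable (fun x : ℕ → ℝ => Real.exp (γ * ex ℓ false 1 false x p.1 p.2)) (iid ν) ∧
      Mo ν (γ / 2) ^ ℓ ≤
        ∫ x : ℕ → ℝ, Real.exp (γ * ex ℓ false 1 false x p.1 p.2) ∂(iid ν) := by
    intro p hp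
    rw [mem_prs] at hp
    obtain ⟨hp1, hp2, hp3⟩ := hp
    have h := hEXC ν hν γ 0 ℓ false false 1 0 0 p.1 p.2 hℓ le_rfl le_rfl (by omega) hp1 hp2 hp3
    simp only [zero_mul, add_zero] at h
    refine ⟨h.1, ?_⟩
    rw [h.2]
    simp only [Bool.false_eq_true, if_false, Mo_zero, one_pow, one_mul, mul_one]
    apply pow_le_pow_of_le_one hM0 hM
    omega
  calc Mo ν (γ / 2) ^ ℓ = ∑ p ∈ prs ℓ 1, ww K ℓ p * Mo ν (γ / 2) ^ ℓ := by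
        rw [← Finset.sum_mul, ww_sum hGGS K ℓ hℓ 1 le_rfl, one_mul]
    _ ≤ ∑ p ∈ prs ℓ 1, ww K ℓ p *
        ∫ x : ℕ → ℝ, Real.exp (γ * ex ℓ false 1 false x p.1 p.2) ∂(iid ν) := by
        apply Finset.sum_le_sum
        intro p hp
        exact mul_le_mul_of_nonneg_left (key p hp).2 (ww_nonneg hGGS K ℓ hℓ p)
    _ = ∫ x : ℕ → ℝ, ∑ p ∈ prs ℓ 1, ww K ℓ p *
          Real.exp (γ * ex ℓ false 1 false x p.1 p.2) ∂(iid ν) := by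
        rw [integral_finsetSum _ (fun p hp => (key p hp).1.const_mul _)]
        apply Finset.sum_congr rfl
        intro p _
        rw [integral_const_mul]
    _ ≤ ∫ x, gg K ℓ false 1 false x ^ γ ∂(iid ν) := by
        apply integral_mono (integrable_finsetSum _ (fun p hp => (key p hp).1.const_mul _))
          (hGIN K ν hν γ ℓ false false 1 hγ hℓ le_rfl)
        intro x
        exact jensen_concave hGGS K ℓ hℓ false 1 le_rfl false x γ hγ.le hγ1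

end Pool.Agent.H53.CG
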