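import Pool.Agent.H55.CG.Targets

/-!
# The order of the gap: the law of the charges (row MAP, helper53)
-/

set_option autoImplicit false

open MeasureTheory ProbabilityTheory Filter Topology
open Pool.Agent.H95 Pool.Agent.H95.Cop Pool.Agent.H55.CG

namespace Pool.Agent.H53.CG

theorem pf_MAP : T_MAP := by
  intro μ _ f hf
  exact Measure.infinitePi_map_pi (fun _ : ℕ => μ) (f := fun _ : ℕ => f) (fun _ => hf)

end Pool.Agent.H53.CG
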