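import Pool.Agent.H55.CG.Targets
import Pool.Agent.H53.CG.GR0

/-!
# The order of the gap: higher moments of a group (row SCG, helper53)
-/

set_option autoImplicit false

open MeasureTheory ProbabilityTheory Filter Topology
open Pool.Agent.H95 Pool.Agent.H95.Cop Pool.Agent.H55.CG

namespace Pool.Agent.H53.CG

theorem pf_SCG (hEXI : T_EXI) (hGGS : T_GGS) (_hMSG : T_MSG) (hGIN : T_GIN) : T_SCG := by
  intro K ν _ hν s D ℓ t t' n hs hD hℓ hn hM1 hM2
  have hs0 : 0 < s := lt_of_lt_of_le one_pos hs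
  have key : ∀ p ∈ prs ℓ n,
      Integrable (fun x : ℕ → ℝ => Real.exp (s * ex ℓ t n t' x p.1 p.2)) (iid ν) ∧
      ∫ x : ℕ → ℝ, Real.exp (s * ex ℓ t n t' x p.1 p.2) ∂(iid ν) ≤ D ^ (2 * n + 1) := by
    intro p hp
    rw [mem_prs] at hp
    exact hEXI ν hν s D ℓ t t' n hs0 hD hℓ hn hM1 hM2 p.1 p.2 hp.1 hp.2.1 hp.2.2
  calc ∫ x, gg K ℓ t n t' x ^ s ∂(iid ν)
      ≤ ∫ x : ℕ → ℝ, ∑ p ∈ prs ℓ n, ww K ℓ p *
          Real.exp (s * ex ℓ t n t' x p.1 p.2) ∂(iid ν) := by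
        apply integral_mono (hGIN K ν hν s ℓ t t' n hs0 hℓ hn)
          (integrable_finsetSum _ (fun p hp => (key p hp).1.const_mul _))
        intro x
        exact jensen_convex hGGS K ℓ hℓ t n hn t' x s hs
    _ = ∑ p ∈ prs ℓ n, ww K ℓ p *
        ∫ x : ℕ → ℝ, Real.exp (s * ex ℓ t n t' x p.1 p.2) ∂(iid ν) := by
        rw [integral_finsetSum _ (fun p hp => (key p hp).1.const_mul _)]
        apply Finset.sum_congr rfl
        intro p _
        rw [integral_const_mul]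
    _ ≤ ∑ p ∈ prs ℓ n, ww K ℓ p * D ^ (2 * n + 1) := by
        apply Finset.sum_le_sum
        intro p hp
        exact mul_le_mul_of_nonneg_left (key p hp).2 (ww_nonneg hGGS K ℓ hℓ p)
    _ = D ^ (2 * n + 1) := by
        rw [← Finset.sum_mul, ww_sum hGGS K ℓ hℓ n hn, one_mul]

end Pool.Agent.H53.CG
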